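import Mathlib
import Pool.Agent.H126R2.CDC.Main

/-!
# MP_b1bfa0_co: there is no counterexample to the circuit double cover conjecture

Every bridgeless graph has a circuit double cover, hence no smallest counterexample to the circuit
double cover conjecture has a cyclic 4-edge-cut.

Graphs, circuits, bridgeless graphs and circuit double covers are those of
`Pool/Agent/H126R2/CDC/Defs.lean` (finite graphs with vertex type `V` and edge type `E`; loops and
parallel edges are allowed).
-/

set_option autoImplicit false

namespace Pool.Agent.Results.MP_b1bfa0_co.NoCounterexample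

open Pool.Agent.H126R2.CDC (MGraph)

variable {V E : Type} [Fintype V] [DecidableEq V] [Fintype E] [DecidableEq E]

/-- A counterexample to the circuit double cover conjecture: a bridgeless graph (every edge lies on
some circuit) without a circuit double cover. -/
def IsCounterexample (G : MGraph V E) : Prop :=
  G.Bridgeless ∧ ¬ ∃ F : Multiset (Finset E), G.IsCDC F

/-- A smallest counterexample: a counterexample which minimises `|V| + |E|` among all
counterexamples. -/
def IsSmallestCounterexample (G : MGraph V E) : Prop :=
  IsCounterexample G ∧
    ∀ (V' E' : Type) [Fintype V'] [DecidableEq V'] [Fintype E'] [DecidableEq E']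
      (G' : MGraph V' E'), IsCounterexample G' →
      Fintype.card V + Fintype.card E ≤ Fintype.card V' + Fintype.card E'

/-- The edge-cut of `X`: the set of the edges with exactly one end in `X`. -/
def IsEdgeCut (G : MGraph V E) (T : Finset E) : Prop :=
  ∃ X : Finset V, X.Nonempty ∧ X ≠ Finset.univ ∧
    ∀ e, e ∈ T ↔ ∃ a ∈ X, ∃ b, b ∉ X ∧ G.ends e = s(a, b)

/-- `u` and `v` are in the same component of `G - T`. -/
def SameComponent (G : MGraph V E) (T : Finset E) (u v : V) : Prop :=
  Relation.ReflTransGen (fun a b => ∃ e, e ∉ T ∧ G.ends e = s(a, b)) u v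

/-- At least two components of `G - T` contain a circuit. -/
def IsCyclicCut (G : MGraph V E) (T : Finset E) : Prop :=
  ∃ C D : Finset E, G.IsCircuit C ∧ G.IsCircuit D ∧ Disjoint C T ∧ Disjoint D T ∧
    ∃ u v : V, (∃ e ∈ C, u ∈ G.ends e) ∧ (∃ e ∈ D, v ∈ G.ends e) ∧ ¬ SameComponent G T u v

/-- **Q1, answered in the affirmative, because the circuit double cover conjecture is true.**
(1) Every finite bridgeless graph has a circuit double cover: there is no counterexample.
(2) Hence no smallest counterexample has a cyclic edge-cut with exactly four edges. -/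
theorem result :
    (∀ (V E : Type) [Fintype V] [DecidableEq V] [Fintype E] [DecidableEq E] (G : MGraph V E),
      G.Bridgeless → ∃ F : Multiset (Finset E), G.IsCDC F) ∧
    (∀ (V E : Type) [Fintype V] [DecidableEq V] [Fintype E] [DecidableEq E] (G : MGraph V E),
      IsSmallestCounterexample G →
        ∀ T : Finset E, IsEdgeCut G T → T.card = 4 → ¬ IsCyclicCut G T) := by
  refine ⟨fun V E _ _ _ _ G hG => MGraph.exists_cdc G hG, fun V E _ _ _ _ G hG => ?_⟩
  exact absurd (MGraph.exists_cdc G hG.1.1) hG.1.2

end Pool.Agent.Results.MP_b1bfa0_co.NoCounterexample
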